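import Mathlib

set_option autoImplicit false

/-! # Iterated difference sets `m A - m A` in an abelian group -/

open Finset
open scoped Pointwise

namespace Pool.Agent.H217R3.AKV

variable {V : Type*} [AddCommGroup V] [DecidableEq V]

/-- the `m`-fold sumset -/
def sm (A : Finset (V)) (m : ℕ) : Finset (V) := nsmulRec m A

/-- `m A - m A` -/
def BB (A : Finset (V)) (m : ℕ) : Finset (V) := sm A m - sm A m

theorem sm_zero (A : Finset (V)) : sm A 0 = {0} := by
  rfl

theorem sm_succ (A : Finset (V)) (m : ℕ) : sm A (m + 1) = sm A m + A := by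
  rfl

theorem sm_one (A : Finset (V)) : sm A 1 = A := by
  rw [show (1 : ℕ) = 0 + 1 from rfl, sm_succ, sm_zero]
  exact zero_add A

theorem sm_add (A : Finset (V)) (m n : ℕ) : sm A (m + n) = sm A m + sm A n := by
  induction n with
  | zero => rw [sm_zero]; exact (add_zero (sm A m)).symm
  | succ n ih => rw [← add_assoc, sm_succ, ih, sm_succ, add_assoc]

theorem sm_nonempty {A : Finset (V)} (hA : A.Nonempty) (m : ℕ) : (sm A m).Nonempty := by
  induction m with
  | zero => rw [sm_zero]; exact singleton_nonempty _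
  | succ n ih => rw [sm_succ]; exact ih.add hA

theorem mem_BB {A : Finset (V)} {m : ℕ} {z : V} :
    z ∈ BB A m ↔ ∃ u ∈ sm A m, ∃ v ∈ sm A m, u - v = z := by
  unfold BB; rw [Finset.mem_sub]

theorem BB_zero_mem {A : Finset (V)} (hA : A.Nonempty) (m : ℕ) : (0 : V) ∈ BB A m := by
  obtain ⟨u, hu⟩ := sm_nonempty hA m
  exact mem_BB.2 ⟨u, hu, u, hu, sub_self u⟩

theorem BB_add {A : Finset (V)} {m n : ℕ} {y z : V} (hy : y ∈ BB A m) (hz : z ∈ BB A n) :
    y + z ∈ BB A (m + n) := by
  obtain ⟨u, hu, v, hv, rfl⟩ := mem_BB.1 hy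
  obtain ⟨u', hu', v', hv', rfl⟩ := mem_BB.1 hz
  refine mem_BB.2 ⟨u + u', ?_, v + v', ?_, by abel⟩
  · rw [sm_add]; exact add_mem_add hu hu'
  · rw [sm_add]; exact add_mem_add hv hv'

theorem BB_neg {A : Finset (V)} {m : ℕ} {y : V} (hy : y ∈ BB A m) : -y ∈ BB A m := by
  obtain ⟨u, hu, v, hv, rfl⟩ := mem_BB.1 hy
  exact mem_BB.2 ⟨v, hv, u, hu, by abel⟩

theorem BB_mono {A : Finset (V)} (hA : A.Nonempty) {m n : ℕ} (h : m ≤ n) {y : V}
    (hy : y ∈ BB A m) : y ∈ BB A n := by
  obtain ⟨k, rfl⟩ := Nat.exists_eq_add_of_le h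
  have := BB_add hy (BB_zero_mem hA k)
  rwa [add_zero] at this

theorem BB_nsmul {A : Finset (V)} (hA : A.Nonempty) {m : ℕ} {y : V} (hy : y ∈ BB A m)
    (a : ℕ) : (a : ℤ) • y ∈ BB A (a * m) := by
  induction a with
  | zero => simpa using BB_zero_mem hA 0
  | succ a ih =>
    have := BB_add ih hy
    rw [show (a + 1) * m = a * m + m by ring]
    convert this using 1
    push_cast
    rw [add_smul, one_smul]

theorem BB_zsmul {A : Finset (V)} (hA : A.Nonempty) {m : ℕ} {y : V} (hy : y ∈ BB A m)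
    (a : ℤ) : a • y ∈ BB A (a.natAbs * m) := by
  rcases Int.natAbs_eq a with h | h
  · have := BB_nsmul hA hy a.natAbs
    rwa [← h] at this
  · have := BB_neg (BB_nsmul hA hy a.natAbs)
    rw [← neg_smul] at this
    rwa [← h] at this

theorem BB_sum {A : Finset (V)} (hA : A.Nonempty) {n m : ℕ} (v : Fin n → V)
    (hv : ∀ i, v i ∈ BB A m) : ∑ i, v i ∈ BB A (n * m) := by
  induction n with
  | zero => simpa using BB_zero_mem hA 0
  | succ n ih =>
    rw [Fin.sum_univ_succ]
    have := BB_add (hv 0) (ih (fun i => v i.succ) (fun i => hv i.succ))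
    rw [show (n + 1) * m = m + n * m by ring]
    exact this

/-- Plünnecke–Ruzsa for `m A - m A` from small doubling -/
theorem card_BB_of_add {A : Finset (V)} (hA : A.Nonempty) {K : ℝ}
    (h : ((A + A).card : ℝ) ≤ K * A.card) (m : ℕ) : ((BB A m).card : ℝ) ≤ K ^ (2 * m) * A.card := by
  have h0 := Finset.pluennecke_ruzsa_inequality_nsmul_sub_nsmul_add hA A m m
  have hc : (0 : ℝ) < A.card := by exact_mod_cast hA.card_pos
  have h1 : ((BB A m).card : ℝ) ≤ (((A + A).card : ℝ) / A.card) ^ (m + m) * A.card := by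
    have h2 : ((BB A m).card : ℚ≥0) ≤ (((A + A).card : ℚ≥0) / A.card) ^ (m + m) * A.card := h0
    have h3 := (NNRat.cast_le (K := ℝ)).2 h2
    push_cast at h3
    exact h3
  refine h1.trans ?_
  rw [two_mul]
  apply mul_le_mul_of_nonneg_right _ hc.le
  apply pow_le_pow_left₀ (by positivity)
  rwa [div_le_iff₀ hc]

/-- Plünnecke–Ruzsa for `m A - m A` from a small difference set -/
theorem card_BB_of_sub {A : Finset (V)} (hA : A.Nonempty) {K : ℝ}
    (h : ((A - A).card : ℝ) ≤ K * A.card) (m : ℕ) : ((BB A m).card : ℝ) ≤ K ^ (2 * m) * A.card := by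
  have h0 := Finset.pluennecke_ruzsa_inequality_nsmul_sub_nsmul_sub hA A m m
  have hc : (0 : ℝ) < A.card := by exact_mod_cast hA.card_pos
  have h1 : ((BB A m).card : ℝ) ≤ (((A - A).card : ℝ) / A.card) ^ (m + m) * A.card := by
    have h2 : ((BB A m).card : ℚ≥0) ≤ (((A - A).card : ℚ≥0) / A.card) ^ (m + m) * A.card := h0
    have h3 := (NNRat.cast_le (K := ℝ)).2 h2
    push_cast at h3
    exact h3
  refine h1.trans ?_
  rw [two_mul]
  apply mul_le_mul_of_nonneg_right _ hc.le
  apply pow_le_pow_left₀ (by positivity)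
  rwa [div_le_iff₀ hc]

end Pool.Agent.H217R3.AKV
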