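import Mathlib
import Pool.Agent.H217R3.AKV.Basic
import Pool.Agent.H217R3.AK.Main
import Pool.Agent.H217R3.AK.Bsg

set_option autoImplicit false

/-! # Counting linear relations, vector version -/

open Finset
open scoped Pointwise

namespace Pool.Agent.H217R3.AKV

/-- integer vectors -/
abbrev H (d : ℕ) := Fin d → ℤ

variable {d : ℕ}

/-- the kernel vector `(-c t, t)` of `x + c y` -/
def vec (c : ℤ) (t : H d) : H d × H d := (-(c • t), t)

/-- the functional `x + c y` -/
def phi (c : ℤ) (z : H d × H d) : H d := z.1 + c • z.2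

theorem zsmul_cancel {a : ℤ} (ha : a ≠ 0) {s t : H d} (h : a • s = a • t) : s = t := by
  funext i
  have := congrFun h i
  simp only [Pi.smul_apply, smul_eq_mul] at this
  exact mul_left_cancel₀ ha this

theorem smul_vec (a c : ℤ) (t : H d) : a • vec c t = vec c (a • t) := by
  simp only [vec, Prod.smul_mk, smul_neg]
  rw [smul_comm]

theorem phi_vec (c c' : ℤ) (t : H d) : phi c (vec c' t) = (c - c') • t := by
  simp only [phi, vec]
  rw [sub_smul]; abel

theorem phi_add (c : ℤ) (y z : H d × H d) : phi c (y + z) = phi c y + phi c z := by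
  simp only [phi, Prod.fst_add, Prod.snd_add, smul_add]; abel

theorem phi_sum {ι : Type*} (c : ℤ) (s : Finset ι) (v : ι → H d × H d) :
    phi c (∑ i ∈ s, v i) = ∑ i ∈ s, phi c (v i) := by
  simp only [phi, Prod.fst_sum, Prod.snd_sum, Finset.smul_sum, ← Finset.sum_add_distrib]

theorem count (n : ℕ) : ∀ (c b : Fin (n + 1) → ℤ), Function.Injective c → (∀ i, b i ≠ 0) →
    ∀ m : ℕ, ∃ M : ℕ, ∀ (A : Finset (H d × H d)), A.Nonempty →
    ∀ P : ℕ, (∀ y : H d, ((BB A M).filter (fun z => z.2 = y)).card ≤ P) →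
    ∀ T : Fin (n + 1) → Finset (H d), (∀ i, ∀ t ∈ T i, vec (c i) (b i • t) ∈ BB A m) →
    ∀ w : H d × H d,
    ((Fintype.piFinset T).filter (fun t => ∑ i, vec (c i) (b i • t i) = w)).card ≤ P ^ n := by
  induction n with
  | zero =>
    intro c b _ hb m
    refine ⟨0, fun A hA P _ T _ w => ?_⟩
    rw [pow_zero, Finset.card_le_one]
    intro t ht t' ht'
    rw [mem_filter] at ht ht'
    have h1 : vec (c 0) (b 0 • t 0) = w := by simpa using ht.2
    have h2 : vec (c 0) (b 0 • t' 0) = w := by simpa using ht'.2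
    funext i
    have hi : i = 0 := Fin.eq_zero i
    subst hi
    exact zsmul_cancel (hb 0) (congrArg Prod.snd (h1.trans h2.symm))
  | succ n ih =>
    intro c b hc hb m
    set m' : ℕ := (∑ j : Fin (n + 1), (c 0 - c j.succ).natAbs) * m with hm'
    have hm'j : ∀ j : Fin (n + 1), (c 0 - c j.succ).natAbs * m ≤ m' := by
      intro j
      rw [hm']
      exact Nat.mul_le_mul_right m
        (Finset.single_le_sum (f := fun j : Fin (n + 1) => (c 0 - c j.succ).natAbs)
          (fun _ _ => Nat.zero_le _) (mem_univ j))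
    obtain ⟨M₁, hM₁⟩ := ih (fun j => c j.succ) (fun j => (c 0 - c j.succ) * b j.succ)
      (fun i j h => Fin.succ_injective _ (hc h))
      (fun j => mul_ne_zero (sub_ne_zero.2 fun h => (Fin.succ_ne_zero j).symm (hc h)) (hb _)) m'
    refine ⟨max M₁ ((n + 1) * m'), fun A hA P hP T hT w => ?_⟩
    have hP₁ : ∀ y : H d, ((BB A M₁).filter (fun z => z.2 = y)).card ≤ P := by
      intro y
      refine le_trans (Finset.card_le_card ?_) (hP y)
      intro z hz
      rw [mem_filter] at hz ⊢
      exact ⟨BB_mono hA (le_max_left _ _) hz.1, hz.2⟩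
    have hT' : ∀ j : Fin (n + 1), ∀ t ∈ T j.succ,
        vec (c j.succ) (((c 0 - c j.succ) * b j.succ) • t) ∈ BB A m' := by
      intro j t ht
      have h1 := BB_zsmul hA (hT j.succ t ht) (c 0 - c j.succ)
      rw [smul_vec, smul_smul] at h1
      exact BB_mono hA (hm'j j) h1
    have hIH := hM₁ A hA P hP₁ (fun j => T j.succ) hT'
    set X := (Fintype.piFinset T).filter (fun t => ∑ i, vec (c i) (b i • t i) = w) with hX
    set W := (BB A (max M₁ ((n + 1) * m'))).filter (fun z => z.2 = phi (c 0) w) with hW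
    set f : (Fin (n + 2) → H d) → H d × H d := fun t =>
      ∑ j : Fin (n + 1), vec (c j.succ) (((c 0 - c j.succ) * b j.succ) • t j.succ) with hf
    have hmaps : ∀ t ∈ X, f t ∈ W := by
      intro t ht
      rw [hX, mem_filter, Fintype.mem_piFinset] at ht
      rw [hW, mem_filter]
      constructor
      · apply BB_mono hA (le_max_right _ _)
        exact BB_sum hA _ fun j => hT' j _ (ht.1 j.succ)
      · simp only [hf]
        rw [Prod.snd_sum]
        have h1 : phi (c 0) w = ∑ j : Fin (n + 1), (c 0 - c j.succ) • (b j.succ • t j.succ) := by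
          rw [← ht.2, Fin.sum_univ_succ, phi_add, phi_vec, sub_self, zero_smul, zero_add, phi_sum]
          exact Finset.sum_congr rfl fun j _ => phi_vec _ _ _
        rw [h1]
        refine Finset.sum_congr rfl fun j _ => ?_
        simp only [vec]
        rw [mul_smul]
    have hfib : ∀ w' ∈ W, (X.filter (fun t => f t = w')).card ≤ P ^ n := by
      intro w' _
      refine le_trans ?_ (hIH w')
      apply Finset.card_le_card_of_injOn
        (fun t : Fin (n + 2) → H d => fun j : Fin (n + 1) => t j.succ)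
      · intro t ht
        rw [mem_coe, mem_filter] at ht
        rw [mem_coe, mem_filter, Fintype.mem_piFinset]
        have ht1 := ht.1
        rw [hX, mem_filter, Fintype.mem_piFinset] at ht1
        exact ⟨fun j => ht1.1 j.succ, ht.2⟩
      · intro t ht t' ht' h
        rw [mem_coe, mem_filter] at ht ht'
        have ht1 := ht.1
        have ht1' := ht'.1
        rw [hX, mem_filter] at ht1 ht1'
        have hj : ∀ j : Fin (n + 1), t j.succ = t' j.succ := fun j => congrFun h j
        have h1 : vec (c 0) (b 0 • t 0) + ∑ j : Fin (n + 1), vec (c j.succ) (b j.succ • t j.succ) =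
            vec (c 0) (b 0 • t' 0) + ∑ j : Fin (n + 1), vec (c j.succ) (b j.succ • t' j.succ) := by
          rw [← Fin.sum_univ_succ (fun i => vec (c i) (b i • t i)),
            ← Fin.sum_univ_succ (fun i => vec (c i) (b i • t' i))]
          exact ht1.2.trans ht1'.2.symm
        have h2 : ∑ j : Fin (n + 1), vec (c j.succ) (b j.succ • t j.succ) =
            ∑ j : Fin (n + 1), vec (c j.succ) (b j.succ • t' j.succ) :=
          Finset.sum_congr rfl fun j _ => by rw [hj j]
        rw [h2] at h1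
        have h0 := zsmul_cancel (hb 0) (congrArg Prod.snd (add_right_cancel h1))
        funext i
        refine Fin.cases h0 (fun j => hj j) i
    have hcard := Finset.card_le_mul_card_image_of_maps_to hmaps (P ^ n) hfib
    calc X.card ≤ P ^ n * W.card := hcard
      _ ≤ P ^ n * P := Nat.mul_le_mul_left _ (hP _)
      _ = P ^ (n + 1) := (pow_succ _ _).symm

/-- a fibre of `x + c y` of average size -/
theorem fiber (c : ℤ) {A : Finset (H d × H d)} (hA : A.Nonempty) :
    ∃ T : Finset (H d), (∀ t ∈ T, vec c ((1 : ℤ) • t) ∈ BB A 1) ∧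
      A.card ≤ (A.image (phi c)).card * T.card := by
  obtain ⟨s, hs, hmax⟩ := Finset.exists_max_image (A.image (phi c))
    (fun s => (A.filter (fun z => phi c z = s)).card) (hA.image _)
  rw [mem_image] at hs
  obtain ⟨z0, hz0, hz0s⟩ := hs
  have hker : ∀ z z' : H d × H d, phi c z = phi c z' → vec c (z.2 - z'.2) = z - z' := by
    intro z z' h
    simp only [phi] at h
    apply Prod.ext
    · simp only [vec, Prod.fst_sub]
      have h1 : z.1 - z'.1 = c • z'.2 - c • z.2 := by
        rw [sub_eq_sub_iff_add_eq_add, h]; abel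
      rw [h1, smul_sub]; abel
    · simp only [vec, Prod.snd_sub]
  refine ⟨(A.filter (fun z => phi c z = s)).image (fun z => z.2 - z0.2), ?_, ?_⟩
  · intro t ht
    rw [mem_image] at ht
    obtain ⟨z, hz, rfl⟩ := ht
    rw [mem_filter] at hz
    rw [one_smul, hker z z0 (hz.2.trans hz0s.symm)]
    exact mem_BB.2 ⟨z, by rw [sm_one]; exact hz.1, z0, by rw [sm_one]; exact hz0, rfl⟩
  · have h1 : ((A.filter (fun z => phi c z = s)).image (fun z => z.2 - z0.2)).card =
        (A.filter (fun z => phi c z = s)).card := by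
      apply Finset.card_image_of_injOn
      intro z hz z' hz' h
      rw [mem_coe, mem_filter] at hz hz'
      have h2 : z.2 = z'.2 := sub_left_injective h
      have h3 := hker z z' (hz.2.trans hz'.2.symm)
      rw [h2, sub_self] at h3
      have h4 : vec c (0 : H d) = 0 := by simp [vec]
      rw [h4] at h3
      exact (sub_eq_zero.1 h3.symm)
    rw [h1, mul_comm]
    exact Finset.card_le_mul_card_image A _ (fun b hb => hmax b hb)

/-- fibres of `y` in `m A - m A` -/
theorem fib_mul {A : Finset (H d × H d)} (hA : A.Nonempty) (M : ℕ) (y : H d) :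
    ((BB A M).filter (fun z => z.2 = y)).card * (A.image Prod.snd).card ≤ (BB A (M + 1)).card := by
  classical
  obtain ⟨a0, ha0⟩ := hA
  have hA : A.Nonempty := ⟨a0, ha0⟩
  have hg : ∀ s : H d, ∃ g : H d × H d, s ∈ A.image Prod.snd → g ∈ A ∧ g.2 = s := by
    intro s
    by_cases hs : s ∈ A.image Prod.snd
    · obtain ⟨g, hg, hgs⟩ := mem_image.1 hs
      exact ⟨g, fun _ => ⟨hg, hgs⟩⟩
    · exact ⟨0, fun h => absurd h hs⟩
  choose g hg using hg
  rw [← Finset.card_product]
  apply Finset.card_le_card_of_injOn (fun p : (H d × H d) × H d => p.1 + (g p.2 - a0))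
  · intro p hp
    rw [mem_coe, mem_product, mem_filter] at hp
    rw [mem_coe]
    apply BB_add hp.1.1
    exact mem_BB.2 ⟨g p.2, by rw [sm_one]; exact (hg _ hp.2).1, a0, by rw [sm_one]; exact ha0, rfl⟩
  · intro p hp p' hp' h
    rw [mem_coe, mem_product, mem_filter] at hp hp'
    have h0 : p.1 + (g p.2 - a0) = p'.1 + (g p'.2 - a0) := h
    have h1 : p.1.2 + (g p.2).2 = p'.1.2 + (g p'.2).2 := by
      have h2 : p.1 + g p.2 = p'.1 + g p'.2 := by
        have h3 := congrArg (fun z => z + a0) h0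
        simp only [add_assoc, sub_add_cancel] at h3
        exact h3
      have h4 := congrArg Prod.snd h2
      simpa only [Prod.snd_add] using h4
    rw [hp.1.2, hp'.1.2, (hg _ hp.2).2, (hg _ hp'.2).2] at h1
    have h4 : p.2 = p'.2 := add_left_cancel h1
    rw [h4] at h0
    exact Prod.ext (add_right_cancel h0) h4

theorem main (n : ℕ) (c : Fin (n + 1) → ℤ) (hc : Function.Injective c) :
    ∃ C : ℕ, ∀ (A : Finset (H d × H d)), A.Nonempty → ∀ K : ℝ, 0 ≤ K →
      (∀ m, ((BB A m).card : ℝ) ≤ K ^ (2 * m) * A.card) →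
      ((A.image Prod.snd).card : ℝ) ^ n ≤ K ^ C * ∏ i, ((A.image (phi (c i))).card : ℝ) := by
  obtain ⟨M, hM⟩ := count (d := d) n c (fun _ => 1) hc (fun _ => one_ne_zero) 1
  refine ⟨(2 * (M + 1)) * n + 2 * (n + 1), fun A hA K hK hB => ?_⟩
  choose T hT1 hT2 using fun i => fiber (c i) hA
  obtain ⟨P, hP1, hP2⟩ : ∃ P : ℕ, (∀ y : H d, ((BB A M).filter (fun z => z.2 = y)).card ≤ P) ∧
      P * (A.image Prod.snd).card ≤ (BB A (M + 1)).card := by
    obtain ⟨y, _, hmax⟩ := Finset.exists_max_image ((BB A M).image Prod.snd)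
      (fun y => ((BB A M).filter (fun z => z.2 = y)).card)
      (Finset.Nonempty.image ⟨0, BB_zero_mem hA M⟩ Prod.snd)
    refine ⟨_, fun y' => ?_, fib_mul hA M y⟩
    by_cases h : y' ∈ (BB A M).image Prod.snd
    · exact hmax y' h
    · rw [Finset.filter_eq_empty_iff.2]
      · simp
      · intro z hz hzc
        exact h (mem_image.2 ⟨z, hz, hzc⟩)
  have hcount := hM A hA P hP1 T hT1
  have htup : ∏ i, (T i).card ≤ P ^ n * (BB A (n + 1)).card := by
    rw [← Fintype.card_piFinset]
    have hmaps : ∀ t ∈ Fintype.piFinset T, ∑ i, vec (c i) ((1 : ℤ) • t i) ∈ BB A (n + 1) := by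
      intro t ht
      rw [Fintype.mem_piFinset] at ht
      have := BB_sum hA (fun i => vec (c i) ((1 : ℤ) • t i)) (fun i => hT1 i _ (ht i))
      rwa [mul_one] at this
    exact Finset.card_le_mul_card_image_of_maps_to hmaps (P ^ n) (fun w _ => hcount w)
  have hcc : (0 : ℝ) < A.card := by exact_mod_cast hA.card_pos
  set N : ℝ := (A.card : ℝ) with hN
  set Q : ℝ := ((A.image Prod.snd).card : ℝ) with hQ
  have hQ0 : 0 ≤ Q := Nat.cast_nonneg _
  have h1 : (P : ℝ) * Q ≤ K ^ (2 * (M + 1)) * N := by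
    refine le_trans ?_ (hB (M + 1))
    rw [hQ]
    exact_mod_cast hP2
  have h2 : (∏ i, ((T i).card : ℝ)) ≤ (P : ℝ) ^ n * (K ^ (2 * (n + 1)) * N) := by
    calc (∏ i, ((T i).card : ℝ)) = ((∏ i, (T i).card : ℕ) : ℝ) := by push_cast; rfl
      _ ≤ ((P ^ n * (BB A (n + 1)).card : ℕ) : ℝ) := by exact_mod_cast htup
      _ = (P : ℝ) ^ n * ((BB A (n + 1)).card : ℝ) := by push_cast; rfl
      _ ≤ _ := mul_le_mul_of_nonneg_left (hB (n + 1)) (pow_nonneg (Nat.cast_nonneg _) _)
  have h3 : N ^ (n + 1) ≤ (∏ i, ((A.image (phi (c i))).card : ℝ)) * ∏ i, ((T i).card : ℝ) := by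
    rw [← Finset.prod_mul_distrib]
    calc N ^ (n + 1) = ∏ _i : Fin (n + 1), N := by
          rw [Finset.prod_const, Finset.card_univ, Fintype.card_fin]
      _ ≤ _ := Finset.prod_le_prod (fun _ _ => hcc.le) (fun i _ => by
          rw [hN]; exact_mod_cast hT2 i)
  set R : ℝ := ∏ i, ((A.image (phi (c i))).card : ℝ) with hR
  have hR0 : 0 ≤ R := Finset.prod_nonneg fun _ _ => Nat.cast_nonneg _
  have hP0 : (0 : ℝ) ≤ P := Nat.cast_nonneg P
  exact AK.num n M K N Q R _ P hK hcc hQ0 hR0 hP0 h1 h2 h3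

end Pool.Agent.H217R3.AKV
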