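import Mathlib
import Pool.Agent.H217R3.AKV.Count

set_option autoImplicit false

/-! # Discrete progressions with an additively structured choice of first terms -/

open Finset
open scoped Pointwise

namespace Pool.Agent.H217R3.AKV

variable {d : ℕ}

theorem disc (d n : ℕ) : ∃ η : ℝ, 0 < η ∧ ∃ Q : ℝ, 0 < Q ∧ ∀ A : Finset (H d × H d), A.Nonempty →
    Set.InjOn (Prod.snd : H d × H d → H d) (A : Set (H d × H d)) →
    (A.card : ℝ) ^ (3 - η) ≤ (A.addEnergy A : ℕ) → ∀ R : ℝ,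
    (∀ j : Fin (n + 2), ((A.image (phi ((j : ℕ) : ℤ))).card : ℝ) ≤ R) →
    (A.card : ℝ) ^ n ≤ Q * R ^ (n + 2) := by
  obtain ⟨C, hC⟩ := main (d := d) (n + 1) (fun j => ((j : ℕ) : ℤ)) (fun i j h => by
    apply Fin.ext
    have h' : (((i : ℕ) : ℤ)) = ((j : ℕ) : ℤ) := h
    exact_mod_cast h')
  refine ⟨1 / ((n : ℝ) + 1 + 10 * C), by positivity, 8 ^ (n + 1) * (2 ^ 22) ^ C, by positivity,
    fun A hA hinj hE R hR => ?_⟩
  set η : ℝ := 1 / ((n : ℝ) + 1 + 10 * C) with hη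
  have hc : (1 : ℝ) ≤ A.card := by exact_mod_cast hA.card_pos
  have hcp : (0 : ℝ) < A.card := by linarith
  have hR0 : 0 ≤ R := le_trans (Nat.cast_nonneg _) (hR 0)
  have hpA : ∀ B ⊆ A, (B.image Prod.snd).card = B.card := by
    intro B hB
    apply Finset.card_image_of_injOn
    intro p hp q hq h
    exact hinj (hB hp) (hB hq) h
  set K : ℝ := (A.card : ℝ) ^ η with hK
  have hK0 : 0 < K := Real.rpow_pos_of_pos hcp _
  have hEK : (A.card : ℝ) ^ 3 ≤ K * (A.addEnergy A : ℕ) := by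
    calc (A.card : ℝ) ^ 3 = K * (A.card : ℝ) ^ (3 - η) := by
          rw [hK, ← Real.rpow_add hcp, ← Real.rpow_natCast]
          congr 1; push_cast; ring
      _ ≤ K * (A.addEnergy A : ℕ) := mul_le_mul_of_nonneg_left hE hK0.le
  obtain ⟨B, hBA, hB, hAB, hBB⟩ := AK.bsg A hA K hK0 hEK
  have h1 := hC B hB (2 ^ 22 * K ^ 10) (by positivity) (card_BB_of_sub hB hBB)
  rw [hpA B hBA] at h1
  have hprod : ∏ i : Fin (n + 1 + 1), ((B.image (phi (((i : ℕ) : ℤ)))).card : ℝ) ≤ R ^ (n + 2) := by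
    calc ∏ i : Fin (n + 1 + 1), ((B.image (phi (((i : ℕ) : ℤ)))).card : ℝ)
        ≤ ∏ _i : Fin (n + 1 + 1), R := by
          refine Finset.prod_le_prod (fun _ _ => Nat.cast_nonneg _) (fun i _ => ?_)
          refine le_trans ?_ (hR i)
          exact_mod_cast Finset.card_le_card (Finset.image_subset_image hBA)
      _ = R ^ (n + 2) := by
          rw [Finset.prod_const, Finset.card_univ, Fintype.card_fin]
  have h2 : (A.card : ℝ) ^ (n + 1) ≤
      (8 * K) ^ (n + 1) * ((2 ^ 22 * K ^ 10) ^ C * R ^ (n + 2)) := by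
    calc (A.card : ℝ) ^ (n + 1) ≤ (8 * K * B.card) ^ (n + 1) := pow_le_pow_left₀ hcp.le hAB _
      _ = (8 * K) ^ (n + 1) * (B.card : ℝ) ^ (n + 1) := mul_pow _ _ _
      _ ≤ (8 * K) ^ (n + 1) * ((2 ^ 22 * K ^ 10) ^ C * R ^ (n + 2)) := by
          apply mul_le_mul_of_nonneg_left _ (by positivity)
          refine h1.trans ?_
          exact mul_le_mul_of_nonneg_left hprod (by positivity)
  have hKp : K ^ (n + 1 + 10 * C) = (A.card : ℝ) := by
    rw [hK, ← Real.rpow_natCast, ← Real.rpow_mul hcp.le]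
    have : η * ((n + 1 + 10 * C : ℕ) : ℝ) = 1 := by
      rw [hη]; push_cast
      have : (n : ℝ) + 1 + 10 * C ≠ 0 := by positivity
      field_simp
    rw [this, Real.rpow_one]
  have h3 : (A.card : ℝ) ^ n * A.card ≤ (8 ^ (n + 1) * (2 ^ 22) ^ C * R ^ (n + 2)) * A.card := by
    calc (A.card : ℝ) ^ n * A.card = (A.card : ℝ) ^ (n + 1) := (pow_succ _ _).symm
      _ ≤ _ := h2
      _ = (8 ^ (n + 1) * (2 ^ 22) ^ C * R ^ (n + 2)) * K ^ (n + 1 + 10 * C) := by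
          rw [mul_pow, mul_pow, pow_add K, ← pow_mul K 10 C]; ring
      _ = _ := by rw [hKp]
  exact le_of_mul_le_mul_right h3 hcp

/-- the grid `{0, …, N-1}^d` -/
noncomputable def grid (d N : ℕ) : Finset (Fin d → ℤ) := Fintype.piFinset (fun _ => Finset.Ico (0 : ℤ) N)

/-- the point `v / N` -/
noncomputable def pt {d : ℕ} (N : ℕ) (v : Fin d → ℤ) : EuclideanSpace ℝ (Fin d) :=
  WithLp.toLp 2 (fun i => (v i : ℝ) / N)

/-- the rounded graph of the choice function at scale `1 / N` -/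
noncomputable def graph {d : ℕ} (a : EuclideanSpace ℝ (Fin d) → EuclideanSpace ℝ (Fin d)) (N : ℕ) :
    Finset ((Fin d → ℤ) × (Fin d → ℤ)) :=
  (grid d N).image (fun v => ((fun i => ⌊(N : ℝ) * a (pt N v) i⌋), v))

theorem card_grid (N : ℕ) : (grid d N).card = N ^ d := by
  unfold grid
  rw [Fintype.card_piFinset]
  simp

theorem injOn_graph (a : EuclideanSpace ℝ (Fin d) → EuclideanSpace ℝ (Fin d)) (N : ℕ) :
    Set.InjOn (Prod.snd : (Fin d → ℤ) × (Fin d → ℤ) → (Fin d → ℤ)) (graph a N) := by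
  intro p hp q hq h
  rw [mem_coe, graph, mem_image] at hp hq
  obtain ⟨v, _, rfl⟩ := hp
  obtain ⟨w, _, rfl⟩ := hq
  have h' : v = w := h
  rw [h']

theorem card_graph (a : EuclideanSpace ℝ (Fin d) → EuclideanSpace ℝ (Fin d)) (N : ℕ) :
    (graph a N).card = N ^ d := by
  unfold graph
  rw [Finset.card_image_of_injective, card_grid]
  intro v w h
  exact congrArg Prod.snd h

theorem pt_mem {N : ℕ} (hN : 1 ≤ N) {v : Fin d → ℤ} (hv : v ∈ grid d N) (i : Fin d) :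
    (pt N v) i ∈ Set.Icc (0 : ℝ) 1 := by
  unfold grid at hv
  rw [Fintype.mem_piFinset] at hv
  have h1 := Finset.mem_Ico.1 (hv i)
  have hN0 : (0 : ℝ) < N := by exact_mod_cast hN
  have h2 : (0 : ℝ) ≤ v i := by exact_mod_cast h1.1
  have h3 : (v i : ℝ) ≤ N := by exact_mod_cast h1.2.le
  constructor
  · exact div_nonneg h2 hN0.le
  · exact (div_le_one hN0).2 h3

/-- the rounded points -/
noncomputable def fl {d : ℕ} (N : ℕ) (b : EuclideanSpace ℝ (Fin d)) : Fin d → ℤ :=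
  fun i => ⌊(N : ℝ) * b i⌋

theorem phi_graph {a : EuclideanSpace ℝ (Fin d) → EuclideanSpace ℝ (Fin d)} {N : ℕ} (hN : 1 ≤ N)
    (j : ℕ) (v : Fin d → ℤ) :
    phi (j : ℤ) ((fun i => ⌊(N : ℝ) * a (pt N v) i⌋), v) = fl N (a (pt N v) + (j : ℝ) • pt N v) := by
  have hN0 : (N : ℝ) ≠ 0 := by
    have : (0 : ℝ) < N := by exact_mod_cast hN
    exact this.ne'
  funext i
  simp only [phi, fl, Pi.add_apply, Pi.smul_apply, smul_eq_mul, PiLp.add_apply, PiLp.smul_apply]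
  have h1 : (N : ℝ) * (a (pt N v) i + (j : ℝ) * (pt N v) i) =
      (N : ℝ) * a (pt N v) i + (((j : ℤ) * v i : ℤ) : ℝ) := by
    simp only [pt]
    push_cast
    field_simp
  rw [h1, Int.floor_add_intCast]

theorem fl_cover {N : ℕ} (hN : 1 ≤ N) {b x : EuclideanSpace ℝ (Fin d)}
    (h : b ∈ Metric.ball x (1 / (N : ℝ))) :
    ∃ u : Fin d → Fin 3, fl N b = fun i => ⌊(N : ℝ) * x i⌋ + ((u i : ℕ) : ℤ) - 1 := by
  have hN0 : (0 : ℝ) < N := by exact_mod_cast hN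
  have hi : ∀ i, ∃ u : Fin 3, ⌊(N : ℝ) * b i⌋ = ⌊(N : ℝ) * x i⌋ + ((u : ℕ) : ℤ) - 1 := by
    intro i
    have h1 : |b i - x i| < 1 / (N : ℝ) := by
      have h2 : ‖(b - x) i‖ ≤ ‖b - x‖ := PiLp.norm_apply_le (b - x) i
      rw [Metric.mem_ball, dist_eq_norm] at h
      rw [PiLp.sub_apply, Real.norm_eq_abs] at h2
      exact h2.trans_lt h
    have h3 : |(N : ℝ) * b i - N * x i| < 1 := by
      rw [← mul_sub, abs_mul, abs_of_pos hN0]
      rw [lt_div_iff₀ hN0] at h1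
      linarith
    rw [abs_lt] at h3
    have h4 : ⌊(N : ℝ) * b i⌋ < ⌊(N : ℝ) * x i⌋ + 2 := by
      rw [Int.floor_lt]
      push_cast
      linarith [Int.lt_floor_add_one ((N : ℝ) * x i)]
    have h5 : ⌊(N : ℝ) * x i⌋ - 1 ≤ ⌊(N : ℝ) * b i⌋ := by
      rw [Int.le_floor]
      push_cast
      linarith [Int.floor_le ((N : ℝ) * x i)]
    refine ⟨⟨(⌊(N : ℝ) * b i⌋ - ⌊(N : ℝ) * x i⌋ + 1).toNat, by omega⟩, ?_⟩
    simp only
    omega
  choose u hu using hi
  exact ⟨u, funext hu⟩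

theorem card_phi_le {a : EuclideanSpace ℝ (Fin d) → EuclideanSpace ℝ (Fin d)} {N : ℕ} (hN : 1 ≤ N)
    {B : Set (EuclideanSpace ℝ (Fin d))} {j : ℕ}
    (hB : ∀ r : EuclideanSpace ℝ (Fin d), (∀ i, r i ∈ Set.Icc (0 : ℝ) 1) → a r + (j : ℝ) • r ∈ B)
    {S : Finset (EuclideanSpace ℝ (Fin d))} (hS : B ⊆ ⋃ x ∈ S, Metric.ball x (1 / (N : ℝ))) :
    ((graph a N).image (phi (j : ℤ))).card ≤ S.card * 3 ^ d := by
  classical
  have hsub : (graph a N).image (phi (j : ℤ)) ⊆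
      (S ×ˢ (univ : Finset (Fin d → Fin 3))).image
        (fun w => fun i => ⌊(N : ℝ) * w.1 i⌋ + ((w.2 i : ℕ) : ℤ) - 1) := by
    intro z hz
    unfold graph at hz
    rw [Finset.image_image] at hz
    obtain ⟨v, hv, rfl⟩ := mem_image.1 hz
    have h1 := hS (hB (pt N v) (pt_mem hN hv))
    rw [Set.mem_iUnion₂] at h1
    obtain ⟨x, hx, hbx⟩ := h1
    obtain ⟨u, hu⟩ := fl_cover hN hbx
    refine mem_image.2 ⟨(x, u), mem_product.2 ⟨hx, mem_univ _⟩, ?_⟩
    simp only [Function.comp]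
    rw [phi_graph hN, hu]
  calc _ ≤ _ := Finset.card_le_card hsub
    _ ≤ (S ×ˢ (univ : Finset (Fin d → Fin 3))).card := Finset.card_image_le
    _ = S.card * 3 ^ d := by
      rw [Finset.card_product, Finset.card_univ, Fintype.card_fun, Fintype.card_fin,
        Fintype.card_fin]

end Pool.Agent.H217R3.AKV
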