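import Mathlib
import Pool.Agent.H217R3.AKV.Disc

set_option autoImplicit false

/-! # Covering numbers of sets containing structured families of progressions -/

open Finset
open scoped Pointwise

namespace Pool.Agent.H217R3.AKV

theorem num3 (d n : ℕ) (ε Q N s : ℝ) (hN : 1 ≤ N) (hs0 : 0 ≤ s) (hQ : 0 < Q)
    (hn : (2 * (d : ℝ) + 1) ≤ ε * (n + 2)) (hNQ : Q * 3 ^ (d * (n + 2)) < N)
    (hs : s ≤ N ^ ((d : ℝ) - ε)) (h : (N ^ d) ^ n ≤ Q * (s * 3 ^ d) ^ (n + 2)) : False := by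
  have hN0 : 0 < N := by linarith
  have h1 : s ^ (n + 2) ≤ N ^ (((d : ℝ) - ε) * (n + 2)) := by
    calc s ^ (n + 2) ≤ (N ^ ((d : ℝ) - ε)) ^ (n + 2) := pow_le_pow_left₀ hs0 hs _
      _ = N ^ (((d : ℝ) - ε) * (n + 2)) := by
        rw [← Real.rpow_natCast, ← Real.rpow_mul hN0.le]
        push_cast; rfl
  have h2 : N ^ ((d : ℝ) * n) ≤ Q * 3 ^ (d * (n + 2)) * N ^ (((d : ℝ) - ε) * (n + 2)) := by
    calc N ^ ((d : ℝ) * n) = (N ^ d) ^ n := by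
          rw [← pow_mul, ← Real.rpow_natCast]; push_cast; rfl
      _ ≤ Q * (s * 3 ^ d) ^ (n + 2) := h
      _ = Q * 3 ^ (d * (n + 2)) * s ^ (n + 2) := by rw [mul_pow, ← pow_mul]; ring
      _ ≤ _ := mul_le_mul_of_nonneg_left h1 (by positivity)
  have h3 : N ^ ((d : ℝ) * n - ((d : ℝ) - ε) * (n + 2)) ≤ Q * 3 ^ (d * (n + 2)) := by
    rw [Real.rpow_sub hN0, div_le_iff₀ (Real.rpow_pos_of_pos hN0 _)]
    exact h2
  have h4 : N ≤ N ^ ((d : ℝ) * n - ((d : ℝ) - ε) * (n + 2)) := by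
    calc N = N ^ (1 : ℝ) := (Real.rpow_one N).symm
      _ ≤ _ := Real.rpow_le_rpow_of_exponent_le hN (by nlinarith)
  linarith

theorem final (d : ℕ) (ε : ℝ) (hε : 0 < ε) : ∃ k : ℕ, ∃ η : ℝ, 0 < η ∧ ∃ N₁ : ℕ, 1 ≤ N₁ ∧
    ∀ (B : Set (EuclideanSpace ℝ (Fin d)))
      (a : EuclideanSpace ℝ (Fin d) → EuclideanSpace ℝ (Fin d)),
      (∀ r : EuclideanSpace ℝ (Fin d), (∀ i, r i ∈ Set.Icc (0 : ℝ) 1) →
        ∀ j : ℕ, j < k → a r + (j : ℝ) • r ∈ B) →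
      ∀ N : ℕ, N₁ ≤ N → (N : ℝ) ^ ((d : ℝ) * (3 - η)) ≤ ((graph a N).addEnergy (graph a N) : ℕ) →
      ∀ S : Finset (EuclideanSpace ℝ (Fin d)), B ⊆ (⋃ x ∈ S, Metric.ball x (1 / (N : ℝ))) →
        (N : ℝ) ^ ((d : ℝ) - ε) ≤ S.card := by
  obtain ⟨n, hn⟩ := exists_nat_ge ((2 * (d : ℝ) + 1) / ε)
  obtain ⟨η, hη, Q, hQ, hdisc⟩ := disc d n
  obtain ⟨N₁, hN₁⟩ := exists_nat_gt (Q * 3 ^ (d * (n + 2)))
  refine ⟨n + 2, η, hη, N₁ + 1, by omega, fun B a hB N hN hE S hS => ?_⟩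
  have hN1 : 1 ≤ N := by omega
  have hNr : (1 : ℝ) ≤ N := by exact_mod_cast hN1
  have hN0 : (0 : ℝ) < N := by linarith
  by_contra hcon
  have hcon' := (not_le.1 hcon).le
  have hne : (graph a N).Nonempty := by
    rw [← Finset.card_pos, card_graph]; exact pow_pos (by omega) _
  have hcg : ((graph a N).card : ℝ) = (N : ℝ) ^ d := by rw [card_graph]; push_cast; rfl
  have h1 := hdisc (graph a N) hne (injOn_graph a N) (by
    rw [hcg, ← Real.rpow_natCast, ← Real.rpow_mul hN0.le]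
    exact hE) ((S.card : ℝ) * 3 ^ d) (fun j => by
      have h2 := card_phi_le (a := a) hN1 (B := B) (j := (j : ℕ))
        (fun r hr => hB r hr j j.2) hS
      exact_mod_cast h2)
  rw [hcg] at h1
  refine num3 d n ε Q N S.card hNr (Nat.cast_nonneg _) hQ ?_ ?_ hcon' h1
  · have h2 := (div_le_iff₀ hε).1 hn
    nlinarith
  · have h2 : (N₁ : ℝ) ≤ N := by exact_mod_cast (by omega : N₁ ≤ N)
    linarith

end Pool.Agent.H217R3.AKV
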