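import Mathlib
import Pool.Agent.H217R3.AKV.Final

set_option autoImplicit false

/-! # Consequences for the upper Minkowski dimension -/

open Finset
open scoped Pointwise

namespace Pool.Agent.H217R3.AKV

variable {d : ℕ}

theorem final2 (d : ℕ) (ε : ℝ) (hε : 0 < ε) : ∃ k : ℕ, ∃ η : ℝ, 0 < η ∧
    ∀ (B : Set (EuclideanSpace ℝ (Fin d)))
      (a : EuclideanSpace ℝ (Fin d) → EuclideanSpace ℝ (Fin d)),
      (∀ r : EuclideanSpace ℝ (Fin d), (∀ i, r i ∈ Set.Icc (0 : ℝ) 1) →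
        ∀ j : ℕ, j < k → a r + (j : ℝ) • r ∈ B) →
      (∀ N₀ : ℕ, ∃ N : ℕ, N₀ ≤ N ∧
        (N : ℝ) ^ ((d : ℝ) * (3 - η)) ≤ ((graph a N).addEnergy (graph a N) : ℕ)) →
      ∀ δ₀ : ℝ, 0 < δ₀ → ∃ δ : ℝ, 0 < δ ∧ δ < δ₀ ∧
        ∀ S : Finset (EuclideanSpace ℝ (Fin d)), B ⊆ (⋃ x ∈ S, Metric.ball x δ) →
          δ ^ (-((d : ℝ) - ε)) ≤ (S.card : ℝ) := by
  obtain ⟨k, η, hη, N₁, hN₁, h⟩ := final d ε hε
  refine ⟨k, η, hη, fun B a hB hE δ₀ hδ₀ => ?_⟩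
  obtain ⟨N₂, hN₂⟩ := exists_nat_gt (1 / δ₀)
  obtain ⟨N, hN, hEN⟩ := hE (N₁ + N₂)
  have hN0 : (0 : ℝ) < N := by exact_mod_cast (by omega : 0 < N)
  refine ⟨1 / (N : ℝ), by positivity, ?_, fun S hS => ?_⟩
  · rw [div_lt_iff₀ hδ₀] at hN₂
    rw [div_lt_iff₀ hN0]
    have h1 : (N₂ : ℝ) ≤ N := by exact_mod_cast (by omega : N₂ ≤ N)
    nlinarith
  · have h1 := h B a hB N (by omega) hEN S hS
    rw [one_div, Real.inv_rpow hN0.le, Real.rpow_neg hN0.le, inv_inv]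
    exact h1

/-- near-affine choices have large additive energy -/
theorem energy_affine {N : ℕ} (hN : 1 ≤ N)
    (a : EuclideanSpace ℝ (Fin d) → EuclideanSpace ℝ (Fin d))
    (L : EuclideanSpace ℝ (Fin d) →ₗ[ℝ] EuclideanSpace ℝ (Fin d)) (w : EuclideanSpace ℝ (Fin d))
    {D : Finset (Fin d → ℤ)} (hD : D ⊆ grid d N)
    (hL : ∀ v ∈ D, ∀ i, |a (pt N v) i - (L (pt N v) + w) i| ≤ 1 / (N : ℝ)) :
    D.card ^ 4 ≤ 12 ^ d * N ^ d * (graph a N).addEnergy (graph a N) := by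
  classical
  have hN0 : (0 : ℝ) < N := by exact_mod_cast hN
  set f : (Fin d → ℤ) → (Fin d → ℤ) × (Fin d → ℤ) := fun v =>
    ((fun i => ⌊(N : ℝ) * a (pt N v) i⌋), v) with hf
  set GD := D.image f with hGD
  have hcard : GD.card = D.card := by
    apply Finset.card_image_of_injective
    intro v w h
    exact congrArg Prod.snd h
  have hsubG : GD ⊆ graph a N := by
    rw [hGD, graph]
    exact Finset.image_subset_image hD
  have hsum : GD + GD ⊆ ((grid d (2 * N)) ×ˢ (univ : Finset (Fin d → Fin 6))).image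
      (fun p => ((fun i => ⌊(N : ℝ) * (L (pt N p.1) + (2 : ℝ) • w) i⌋ + ((p.2 i : ℕ) : ℤ) - 3), p.1)) := by
    intro z hz
    obtain ⟨z1, hz1, z2, hz2, rfl⟩ := Finset.mem_add.1 hz
    obtain ⟨v1, hv1, rfl⟩ := mem_image.1 hz1
    obtain ⟨v2, hv2, rfl⟩ := mem_image.1 hz2
    have hu : ∀ i, ∃ u : Fin 6, ⌊(N : ℝ) * a (pt N v1) i⌋ + ⌊(N : ℝ) * a (pt N v2) i⌋ =
        ⌊(N : ℝ) * (L (pt N (v1 + v2)) + (2 : ℝ) • w) i⌋ + ((u : ℕ) : ℤ) - 3 := by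
      intro i
      have h1 := hL v1 hv1 i
      have h2 := hL v2 hv2 i
      have hb : ∀ x y : ℝ, |x - y| ≤ 1 / (N : ℝ) → |(N : ℝ) * x - N * y| ≤ 1 := by
        intro x y h
        rw [← mul_sub, abs_mul, abs_of_pos hN0]
        rw [le_div_iff₀ hN0] at h
        linarith
      have h3 := abs_le.1 (hb _ _ h1)
      have h4 := abs_le.1 (hb _ _ h2)
      have hpt : pt N (v1 + v2) = pt N v1 + pt N v2 := by
        ext i
        simp only [pt, Pi.add_apply, PiLp.add_apply]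
        push_cast; ring
      have h5 : (N : ℝ) * (L (pt N (v1 + v2)) + (2 : ℝ) • w) i =
          (N : ℝ) * (L (pt N v1) + w) i + (N : ℝ) * (L (pt N v2) + w) i := by
        rw [hpt, map_add]
        simp only [PiLp.add_apply, PiLp.smul_apply, smul_eq_mul]
        ring
      rw [h5]
      generalize (N : ℝ) * (L (pt N v1) + w) i = y1 at *
      generalize (N : ℝ) * (L (pt N v2) + w) i = y2 at *
      generalize (N : ℝ) * a (pt N v1) i = x1 at *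
      generalize (N : ℝ) * a (pt N v2) i = x2 at *
      have f1 := Int.floor_le x1
      have f2 := Int.lt_floor_add_one x1
      have f3 := Int.floor_le x2
      have f4 := Int.lt_floor_add_one x2
      have f5 := Int.floor_le (y1 + y2)
      have f6 := Int.lt_floor_add_one (y1 + y2)
      have g1 : ⌊x1⌋ + ⌊x2⌋ < ⌊y1 + y2⌋ + 3 := by
        have : ((⌊x1⌋ + ⌊x2⌋ : ℤ) : ℝ) < ((⌊y1 + y2⌋ + 3 : ℤ) : ℝ) := by
          push_cast; linarith [h3.1, h3.2, h4.1, h4.2]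
        exact_mod_cast this
      have g2 : ⌊y1 + y2⌋ - 4 < ⌊x1⌋ + ⌊x2⌋ := by
        have : ((⌊y1 + y2⌋ - 4 : ℤ) : ℝ) < ((⌊x1⌋ + ⌊x2⌋ : ℤ) : ℝ) := by
          push_cast; linarith [h3.1, h3.2, h4.1, h4.2]
        exact_mod_cast this
      refine ⟨⟨(⌊x1⌋ + ⌊x2⌋ - ⌊y1 + y2⌋ + 3).toNat, by omega⟩, ?_⟩
      simp only
      omega
    choose u hu using hu
    refine mem_image.2 ⟨(v1 + v2, u), mem_product.2 ⟨?_, mem_univ _⟩, ?_⟩
    · have g1 := hD hv1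
      have g2 := hD hv2
      unfold grid at g1 g2 ⊢
      rw [Fintype.mem_piFinset] at g1 g2 ⊢
      intro i
      have g3 := Finset.mem_Ico.1 (g1 i)
      have g4 := Finset.mem_Ico.1 (g2 i)
      rw [Finset.mem_Ico]
      simp only [Pi.add_apply]
      push_cast
      omega
    · refine Prod.ext ?_ rfl
      funext i
      exact (hu i).symm
  have hsc : (GD + GD).card ≤ 12 ^ d * N ^ d := by
    calc (GD + GD).card ≤ _ := Finset.card_le_card hsum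
      _ ≤ ((grid d (2 * N)) ×ˢ (univ : Finset (Fin d → Fin 6))).card := Finset.card_image_le
      _ = (2 * N) ^ d * 6 ^ d := by
        rw [Finset.card_product, card_grid, Finset.card_univ, Fintype.card_fun, Fintype.card_fin,
          Fintype.card_fin]
      _ = _ := by
        rw [← mul_pow, ← mul_pow]; congr 1; ring
  calc D.card ^ 4 = GD.card ^ 2 * GD.card ^ 2 := by rw [hcard]; ring
    _ ≤ (GD + GD).card * GD.addEnergy GD := Finset.le_card_add_mul_addEnergy GD GD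
    _ ≤ (12 ^ d * N ^ d) * (graph a N).addEnergy (graph a N) :=
        Nat.mul_le_mul hsc (Finset.addEnergy_mono hsubG hsubG)

theorem num4 (d : ℕ) (hd : 1 ≤ d) (η N D E : ℝ) (hη : 0 < η) (hN : (12 : ℝ) ^ (2 / η) ≤ N)
    (hD : N ^ ((d : ℝ) - (d : ℝ) * η / 8) ≤ D) (h : D ^ 4 ≤ 12 ^ d * N ^ d * E) :
    N ^ ((d : ℝ) * (3 - η)) ≤ E := by
  have h12 : (1 : ℝ) ≤ (12 : ℝ) ^ (2 / η) := Real.one_le_rpow (by norm_num) (by positivity)
  have hN1 : 1 ≤ N := h12.trans hN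
  have hN0 : 0 < N := by linarith
  have h1 : (12 : ℝ) ^ d ≤ N ^ ((d : ℝ) * η / 2) := by
    calc (12 : ℝ) ^ d = ((12 : ℝ) ^ (2 / η)) ^ ((d : ℝ) * η / 2) := by
          rw [← Real.rpow_mul (by norm_num), ← Real.rpow_natCast]
          congr 1
          field_simp
      _ ≤ _ := Real.rpow_le_rpow (by positivity) hN (by positivity)
  have h2 : (N ^ ((d : ℝ) - (d : ℝ) * η / 8)) ^ 4 ≤ D ^ 4 :=
    pow_le_pow_left₀ (Real.rpow_nonneg hN0.le _) hD 4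
  have hE0 : 0 ≤ E := by
    by_contra hE
    have h3 : (12 : ℝ) ^ d * N ^ d * E < 0 := mul_neg_of_pos_of_neg (by positivity) (not_le.1 hE)
    have h4 : 0 < (N ^ ((d : ℝ) - (d : ℝ) * η / 8)) ^ 4 := by positivity
    linarith
  have h3 : N ^ (4 * (d : ℝ) - (d : ℝ) * η / 2) ≤ N ^ ((d : ℝ) * η / 2) * N ^ (d : ℝ) * E := by
    calc N ^ (4 * (d : ℝ) - (d : ℝ) * η / 2) = (N ^ ((d : ℝ) - (d : ℝ) * η / 8)) ^ 4 := by
          rw [← Real.rpow_natCast, ← Real.rpow_mul hN0.le]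
          congr 1; push_cast; ring
      _ ≤ D ^ 4 := h2
      _ ≤ 12 ^ d * N ^ d * E := h
      _ = 12 ^ d * N ^ (d : ℝ) * E := by rw [Real.rpow_natCast]
      _ ≤ _ := by
          apply mul_le_mul_of_nonneg_right _ hE0
          exact mul_le_mul_of_nonneg_right h1 (Real.rpow_nonneg hN0.le _)
  rw [← Real.rpow_add hN0] at h3
  have h4 : 0 < N ^ ((d : ℝ) * η / 2 + d) := Real.rpow_pos_of_pos hN0 _
  have h5 : N ^ ((d : ℝ) * (3 - η)) * N ^ ((d : ℝ) * η / 2 + d) ≤ E * N ^ ((d : ℝ) * η / 2 + d) := by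
    calc N ^ ((d : ℝ) * (3 - η)) * N ^ ((d : ℝ) * η / 2 + d)
        = N ^ (4 * (d : ℝ) - (d : ℝ) * η / 2) := by
          rw [← Real.rpow_add hN0]; congr 1; ring
      _ ≤ _ := h3
      _ = _ := mul_comm _ _
  exact le_of_mul_le_mul_right h5 h4

theorem final3 (d : ℕ) (hd : 1 ≤ d) (ε : ℝ) (hε : 0 < ε) : ∃ k : ℕ, ∃ η : ℝ, 0 < η ∧
    ∀ (B : Set (EuclideanSpace ℝ (Fin d)))
      (a : EuclideanSpace ℝ (Fin d) → EuclideanSpace ℝ (Fin d)),
      (∀ r : EuclideanSpace ℝ (Fin d), (∀ i, r i ∈ Set.Icc (0 : ℝ) 1) →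
        ∀ j : ℕ, j < k → a r + (j : ℝ) • r ∈ B) →
      (∀ N₀ : ℕ, ∃ N : ℕ, N₀ ≤ N ∧ ∃ (L : EuclideanSpace ℝ (Fin d) →ₗ[ℝ] EuclideanSpace ℝ (Fin d))
        (w : EuclideanSpace ℝ (Fin d)) (D : Finset (Fin d → ℤ)), D ⊆ grid d N ∧
        (N : ℝ) ^ ((d : ℝ) - η) ≤ D.card ∧
        ∀ v ∈ D, ∀ i, |a (pt N v) i - (L (pt N v) + w) i| ≤ 1 / (N : ℝ)) →
      ∀ δ₀ : ℝ, 0 < δ₀ → ∃ δ : ℝ, 0 < δ ∧ δ < δ₀ ∧
        ∀ S : Finset (EuclideanSpace ℝ (Fin d)), B ⊆ (⋃ x ∈ S, Metric.ball x δ) →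
          δ ^ (-((d : ℝ) - ε)) ≤ (S.card : ℝ) := by
  obtain ⟨k, η, hη, h⟩ := final2 d ε hε
  have hd0 : (0 : ℝ) < d := by exact_mod_cast hd
  refine ⟨k, (d : ℝ) * η / 8, by positivity, fun B a hB hA => ?_⟩
  apply h B a hB
  intro N₀
  obtain ⟨N₂, hN₂⟩ := exists_nat_ge ((12 : ℝ) ^ (2 / η))
  obtain ⟨N, hN, L, w, D, hDg, hDc, hDL⟩ := hA (N₀ + N₂ + 1)
  refine ⟨N, by omega, ?_⟩
  have h1 := energy_affine (by omega : 1 ≤ N) a L w hDg hDL
  apply num4 d hd η N D.card _ hη _ hDc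
  · have : ((D.card ^ 4 : ℕ) : ℝ) ≤ ((12 ^ d * N ^ d * (graph a N).addEnergy (graph a N) : ℕ) : ℝ) := by
      exact_mod_cast h1
    push_cast at this
    exact this
  · have h2 : (N₂ : ℝ) ≤ N := by exact_mod_cast (by omega : N₂ ≤ N)
    linarith

end Pool.Agent.H217R3.AKV
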